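import Pool.Agent.Y52.SJ.Stm3

/-!
# Project SJ, POL: the largest pairing of the polars (helper686, for helper52)
-/

set_option autoImplicit false

namespace Pool.Agent.Y686.SJ

open Pool.Agent.Y52.SJ

/-- the polar set -/
def pol {m : ℕ} (S : Set (Fin m → ℝ)) : Set (Fin m → ℝ) := {u | ∀ q ∈ S, ∑ i, u i * q i ≤ 1}

lemma single_sum {m : ℕ} (u : Fin m → ℝ) (i : Fin m) (c : ℝ) :
    ∑ j, u j * (Pi.single i c : Fin m → ℝ) j = u i * c := by
  rw [Finset.sum_eq_single i]
  · rw [Pi.single_eq_same]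
  · intro j _ hj
    rw [Pi.single_eq_of_ne hj, mul_zero]
  · intro h
    exact absurd (Finset.mem_univ i) h

lemma pol_compact {m : ℕ} {S : Set (Fin m → ℝ)} (hS : Body S) : IsCompact (pol S) := by
  obtain ⟨x, hx, hpos⟩ := hS.pos
  have h1 : pol S ⊆ Set.pi Set.univ (fun i => Set.Icc (-(1 / x i)) (1 / x i)) := by
    intro u hu i _
    have h2 : ∀ ε : ℝ, |ε| = 1 → u i * (ε * x i) ≤ 1 := by
      intro ε hε
      have h3 : (Pi.single i (ε * x i) : Fin m → ℝ) ∈ S := by
        refine hS.solid x hx _ fun j => ?_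
        by_cases hj : j = i
        · subst hj
          rw [Pi.single_eq_same, abs_mul, hε, one_mul]
        · rw [Pi.single_eq_of_ne hj, abs_zero]
          exact abs_nonneg _
      have h4 := hu _ h3
      rwa [single_sum] at h4
    have h5 := h2 1 (by simp)
    have h6 := h2 (-1) (by simp)
    have hx0 := hpos i
    have h7 : u i ≤ 1 / x i := by
      rw [le_div_iff₀ hx0]
      linarith
    have h8 : -u i ≤ 1 / x i := by
      rw [le_div_iff₀ hx0]
      linarith
    exact ⟨by linarith, h7⟩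
  have h2 : IsClosed (pol S) := by
    have h3 : pol S = ⋂ q ∈ S, {u | ∑ i, u i * q i ≤ 1} := by
      ext u
      simp [pol]
    rw [h3]
    exact isClosed_biInter fun q _ => isClosed_le (by fun_prop) continuous_const
  exact IsCompact.of_isClosed_subset (isCompact_univ_pi fun i => isCompact_Icc) h2 h1

lemma zero_mem {m : ℕ} {S : Set (Fin m → ℝ)} (hS : Body S) : (0 : Fin m → ℝ) ∈ S := by
  obtain ⟨x, hx, -⟩ := hS.pos
  exact hS.solid x hx 0 fun i => by simp

lemma zero_pol {m : ℕ} (S : Set (Fin m → ℝ)) : (0 : Fin m → ℝ) ∈ pol S := by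
  intro q _
  simp

lemma single_pol {m : ℕ} {S : Set (Fin m → ℝ)} (hS : Body S) (i : Fin m) :
    ∃ c : ℝ, 0 < c ∧ (Pi.single i c : Fin m → ℝ) ∈ pol S := by
  obtain ⟨R, hR⟩ := hS.cpt.isBounded.subset_closedBall (0 : Fin m → ℝ)
  refine ⟨1 / (|R| + 1), by positivity, ?_⟩
  intro q hq
  have h1 : ∑ j, (Pi.single i (1 / (|R| + 1)) : Fin m → ℝ) j * q j = q i * (1 / (|R| + 1)) := by
    rw [← single_sum]
    exact Finset.sum_congr rfl fun j _ => mul_comm _ _
  rw [h1]
  have h2 : ‖q‖ ≤ R := by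
    have := hR hq
    rwa [mem_closedBall_zero_iff] at this
  have h3 : q i ≤ |R| := (le_abs_self _).trans (((norm_le_pi_norm q i).trans h2).trans
    (le_abs_self R))
  rw [mul_one_div, div_le_one (by positivity)]
  linarith

lemma pol_sq {m : ℕ} {S : Set (Fin m → ℝ)} (hS : Body S) {u : Fin m → ℝ} (hu : u ∈ pol S)
    {q : Fin m → ℝ} (hq : q ∈ S) : (∑ i, u i * q i) ^ 2 ≤ 1 := by
  have h1 := hu q hq
  have h2 : (-q) ∈ S := hS.solid q hq _ fun i => by simp
  have h3 := hu _ h2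
  have h4 : ∑ i, u i * (-q) i = -∑ i, u i * q i := by
    rw [← Finset.sum_neg_distrib]
    exact Finset.sum_congr rfl fun i _ => by simp
  rw [h4] at h3
  nlinarith

theorem main : S_POL := by
  intro m hm S T hS hT
  have hcomp : IsCompact (pol S ×ˢ pol T) := (pol_compact hS).prod (pol_compact hT)
  have hne : (pol S ×ˢ pol T).Nonempty := ⟨(0, 0), zero_pol S, zero_pol T⟩
  obtain ⟨⟨u, v⟩, ⟨hu, hv⟩, hmax⟩ := hcomp.exists_isMaxOn hne
    (f := fun z : (Fin m → ℝ) × (Fin m → ℝ) => ∑ i, z.1 i * z.2 i) (by fun_prop)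
  have hmax' : ∀ a ∈ pol S, ∀ b ∈ pol T, ∑ i, a i * b i ≤ ∑ i, u i * v i := by
    intro a ha b hb
    exact hmax (show (a, b) ∈ pol S ×ˢ pol T from ⟨ha, hb⟩)
  have hpos : 0 < ∑ i, u i * v i := by
    obtain ⟨c, hc, hcS⟩ := single_pol hS ⟨0, hm⟩
    obtain ⟨c', hc', hcT⟩ := single_pol hT ⟨0, hm⟩
    refine lt_of_lt_of_le ?_ (hmax' _ hcS _ hcT)
    rw [single_sum, Pi.single_eq_same]
    positivity
  refine ⟨u, v, ∑ i, u i * v i, hpos, rfl, fun q hq => pol_sq hS hu hq,
    fun q hq => pol_sq hT hv hq, ?_⟩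
  intro p hp
  by_contra hnot
  obtain ⟨f, c, hf, hc⟩ := geometric_hahn_banach_closed_point hT.conv hT.cpt.isClosed hnot
  have hc0 : 0 < c := by
    have := hf 0 (zero_mem hT)
    rwa [map_zero] at this
  have hfs : ∀ t : Fin m → ℝ, f t = ∑ i, t i * f (Pi.single i 1) := by
    intro t
    have h1 : t = ∑ i, t i • (Pi.single i (1 : ℝ) : Fin m → ℝ) := by
      funext j
      rw [Finset.sum_apply]
      simp [Pi.single_apply]
    conv_lhs => rw [h1]
    rw [map_sum]
    exact Finset.sum_congr rfl fun i _ => by rw [map_smul, smul_eq_mul]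
  have hw : (fun i => f (Pi.single i 1) / c) ∈ pol T := by
    intro t ht
    have h1 : ∑ i, f (Pi.single i 1) / c * t i = f t / c := by
      rw [hfs t, Finset.sum_div]
      exact Finset.sum_congr rfl fun i _ => by ring
    show ∑ i, f (Pi.single i 1) / c * t i ≤ 1
    rw [h1, div_le_one hc0]
    exact (hf t ht).le
  have hpS : p ∈ pol S := by
    intro q hq
    have h1 := hp q hq
    calc ∑ i, p i * q i = ∑ i, q i * p i := Finset.sum_congr rfl fun i _ => mul_comm _ _
      _ ≤ 1 := h1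
  have h2 := hmax' p hpS _ hw
  have h3 : ∑ i, p i * (f (Pi.single i 1) / c) = f p / c := by
    rw [hfs p, Finset.sum_div]
    exact Finset.sum_congr rfl fun i _ => by ring
  rw [h3, div_le_iff₀ hc0] at h2
  rw [map_smul, smul_eq_mul, ← div_eq_inv_mul, lt_div_iff₀ hpos] at hc
  linarith

end Pool.Agent.Y686.SJ
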